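import Mathlib

/-!
# FS-DRIFT (MP_75608d_al, middle levels, route of helper38)

`y₁ = τ y₀`.  Along a word `y^(ε_N) g_N ⋯ y^(ε_1) g_1` with independent `g_j`, the support of the
difference of the two systems grows linearly, if the law of `g` satisfies the sampler lemma for
the support `P` of `τ` and for `y₀⁻¹ P`.
-/

set_option autoImplicit false

open Equiv Finset

namespace Pool.Agent.Helper96.FS

variable {n : ℕ}

/-- `y` or `y⁻¹` -/
def sg (b : Bool) (y : Perm (Fin n)) : Perm (Fin n) := if b then y else y⁻¹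

/-- The word `y^(ε_(N-1)) g_(N-1) ⋯ y^(ε_0) g_0`. -/
def pre (ε : ℕ → Bool) (y : Perm (Fin n)) : (N : ℕ) → (Fin N → Perm (Fin n)) → Perm (Fin n)
  | 0, _ => 1
  | N + 1, g => sg (ε N) y * g (Fin.last N) * pre ε y N (Fin.init g)

/-- the difference of the two systems -/
def dif (ε : ℕ → Bool) (y₀ y₁ : Perm (Fin n)) (N : ℕ) (g : Fin N → Perm (Fin n)) :
    Perm (Fin n) := (pre ε y₀ N g)⁻¹ * pre ε y₁ N g

/-- Sampler property of the law `μ` for the set `Q`: for all sets `R` with at most `A` elements,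
the event that `g⁻¹ Q` has at least `|Q| / 16` elements in `R` has weight at most `x`. -/
def Sampler (μ : Perm (Fin n) → ℝ) (Q : Finset (Fin n)) (A : ℕ) (x : ℝ) : Prop :=
  ∀ R : Finset (Fin n), R.card ≤ A →
    ∑ g : Perm (Fin n), μ g * (if Q.card ≤ 16 * (Q.filter fun q => g⁻¹ q ∈ R).card then 1 else 0)
      ≤ x

lemma card_support_mul (σ D : Perm (Fin n)) :
    σ.support.card + D.support.card ≤
      (σ * D).support.card + 2 * (σ.support ∩ D.support).card := by
  classical
  set A : Finset (Fin n) := σ.support \ D.support with hA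
  set B : Finset (Fin n) := D.support.filter (fun x => D x ∉ σ.support) with hB
  have hdisj : Disjoint A B := by
    rw [Finset.disjoint_left]
    intro x hx hx'
    exact (mem_sdiff.1 hx).2 (mem_filter.1 hx').1
  have hsub : A ∪ B ⊆ (σ * D).support := by
    intro x hx
    rw [Perm.mem_support, Perm.mul_apply]
    rcases mem_union.1 hx with h | h
    · obtain ⟨h1, h2⟩ := mem_sdiff.1 h
      rw [Perm.notMem_support] at h2
      rw [h2]
      exact Perm.mem_support.1 h1
    · obtain ⟨h1, h2⟩ := mem_filter.1 h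
      rw [Perm.notMem_support] at h2
      rw [h2]
      exact Perm.mem_support.1 h1
  have h1 : A.card + (σ.support ∩ D.support).card = σ.support.card := by
    rw [hA]
    exact card_sdiff_add_card_inter σ.support D.support
  have h2 : B.card + (σ.support ∩ D.support).card = D.support.card := by
    have h3 : (D.support.filter (fun x => D x ∈ σ.support)).card =
        (σ.support ∩ D.support).card := by
      refine Finset.card_bij (fun x _ => D x) ?_ ?_ ?_
      · intro x hx
        obtain ⟨hx1, hx2⟩ := mem_filter.1 hx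
        exact mem_inter.2 ⟨hx2, Perm.apply_mem_support.2 hx1⟩
      · intro a _ b _ hab
        exact D.injective hab
      · intro b hb
        obtain ⟨hb1, hb2⟩ := mem_inter.1 hb
        refine ⟨D⁻¹ b, mem_filter.2 ⟨?_, ?_⟩, ?_⟩
        · rw [← Perm.apply_mem_support, ← Perm.mul_apply, mul_inv_cancel, Perm.one_apply]
          exact hb2
        · rw [← Perm.mul_apply, mul_inv_cancel, Perm.one_apply]
          exact hb1
        · simp
    have h4 := Finset.card_filter_add_card_filter_not (s := D.support)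
      (fun x => D x ∈ σ.support)
    rw [h3] at h4
    rw [hB]
    omega
  have h3 := Finset.card_le_card hsub
  rw [Finset.card_union_of_disjoint hdisj] at h3
  omega

/-- the point whose image under `g⁻¹` is tested -/
def tst (b : Bool) (y₀ : Perm (Fin n)) (p : Fin n) : Fin n := if b then y₀⁻¹ p else p

/-- the tested set at time `N` -/
def RR (ε : ℕ → Bool) (y₀ y₁ : Perm (Fin n)) (N : ℕ) (g : Fin N → Perm (Fin n)) :
    Finset (Fin n) := (dif ε y₀ y₁ N g).support.image (pre ε y₀ N g)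

/-- the number of points of `P` which the next letter moves onto the support -/
def hit (ε : ℕ → Bool) (y₀ y₁ : Perm (Fin n)) (P : Finset (Fin n)) (N : ℕ)
    (g : Fin N → Perm (Fin n)) (h : Perm (Fin n)) : ℕ :=
  (P.filter fun p => h⁻¹ (tst (ε N) y₀ p) ∈ RR ε y₀ y₁ N g).card

lemma card_RR (ε : ℕ → Bool) (y₀ y₁ : Perm (Fin n)) (N : ℕ) (g : Fin N → Perm (Fin n)) :
    (RR ε y₀ y₁ N g).card = (dif ε y₀ y₁ N g).support.card :=
  card_image_of_injective _ (pre ε y₀ N g).injective

/-- the permutation by which the difference is multiplied -/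
def sig (ε : ℕ → Bool) (y₀ τ : Perm (Fin n)) (N : ℕ) (g : Fin (N + 1) → Perm (Fin n)) :
    Perm (Fin n) :=
  if ε N then (y₀ * g (Fin.last N) * pre ε y₀ N (Fin.init g))⁻¹ * τ *
      (y₀ * g (Fin.last N) * pre ε y₀ N (Fin.init g))
  else (g (Fin.last N) * pre ε y₀ N (Fin.init g))⁻¹ * τ⁻¹ *
      (g (Fin.last N) * pre ε y₀ N (Fin.init g))

lemma dif_succ (ε : ℕ → Bool) (y₀ τ : Perm (Fin n)) (N : ℕ) (g : Fin (N + 1) → Perm (Fin n)) :
    dif ε y₀ (τ * y₀) (N + 1) g = sig ε y₀ τ N g * dif ε y₀ (τ * y₀) N (Fin.init g) := by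
  unfold dif sig
  rw [pre, pre]
  unfold sg
  by_cases h : ε N
  · simp only [h, if_true]
    group
  · simp only [h, Bool.false_eq_true, if_false]
    group

lemma support_sig_card (ε : ℕ → Bool) (y₀ τ : Perm (Fin n)) (N : ℕ)
    (g : Fin (N + 1) → Perm (Fin n)) : (sig ε y₀ τ N g).support.card = τ.support.card := by
  unfold sig
  split_ifs
  · have h := Perm.card_support_conj (σ := (y₀ * g (Fin.last N) * pre ε y₀ N (Fin.init g))⁻¹)
      (τ := τ)
    rw [inv_inv] at h
    exact h
  · have h := Perm.card_support_conj (σ := (g (Fin.last N) * pre ε y₀ N (Fin.init g))⁻¹)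
      (τ := τ⁻¹)
    rw [inv_inv, Perm.support_inv] at h
    exact h

lemma mem_support_conj_inv {H τ : Perm (Fin n)} {x : Fin n} (h : x ∈ (H⁻¹ * τ * H).support) :
    H x ∈ τ.support := by
  rw [Perm.mem_support] at h ⊢
  intro h'
  apply h
  rw [Perm.mul_apply, Perm.mul_apply, h', ← Perm.mul_apply, inv_mul_cancel, Perm.one_apply]

lemma inter_card (ε : ℕ → Bool) (y₀ τ : Perm (Fin n)) (N : ℕ) (g : Fin (N + 1) → Perm (Fin n)) :
    ((sig ε y₀ τ N g).support ∩ (dif ε y₀ (τ * y₀) N (Fin.init g)).support).card ≤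
      hit ε y₀ (τ * y₀) τ.support N (Fin.init g) (g (Fin.last N)) := by
  unfold hit
  by_cases h : ε N
  · refine Finset.card_le_card_of_injOn
      (fun x => (y₀ * g (Fin.last N) * pre ε y₀ N (Fin.init g)) x) ?_
      (fun a _ b _ hab => (y₀ * g (Fin.last N) * pre ε y₀ N (Fin.init g)).injective hab)
    intro x hx
    obtain ⟨hx1, hx2⟩ := mem_inter.1 (Finset.mem_coe.1 hx)
    unfold sig at hx1
    rw [if_pos h] at hx1
    refine Finset.mem_coe.2 (mem_filter.2 ⟨mem_support_conj_inv hx1, ?_⟩)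
    unfold tst RR
    rw [if_pos h]
    refine mem_image.2 ⟨x, hx2, ?_⟩
    simp only [Perm.mul_apply]
    rw [← Perm.mul_apply y₀⁻¹, inv_mul_cancel, Perm.one_apply,
      ← Perm.mul_apply (g (Fin.last N))⁻¹, inv_mul_cancel, Perm.one_apply]
  · refine Finset.card_le_card_of_injOn
      (fun x => (g (Fin.last N) * pre ε y₀ N (Fin.init g)) x) ?_
      (fun a _ b _ hab => (g (Fin.last N) * pre ε y₀ N (Fin.init g)).injective hab)
    intro x hx
    obtain ⟨hx1, hx2⟩ := mem_inter.1 (Finset.mem_coe.1 hx)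
    unfold sig at hx1
    rw [if_neg h] at hx1
    have h3 := mem_support_conj_inv hx1
    rw [Perm.support_inv] at h3
    refine Finset.mem_coe.2 (mem_filter.2 ⟨h3, ?_⟩)
    unfold tst RR
    rw [if_neg h]
    refine mem_image.2 ⟨x, hx2, ?_⟩
    simp only [Perm.mul_apply]
    rw [← Perm.mul_apply (g (Fin.last N))⁻¹, inv_mul_cancel, Perm.one_apply]

lemma hit_le (ε : ℕ → Bool) (y₀ y₁ : Perm (Fin n)) (P : Finset (Fin n)) (N : ℕ)
    (g : Fin N → Perm (Fin n)) (h : Perm (Fin n)) : hit ε y₀ y₁ P N g h ≤ P.card :=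
  card_filter_le _ _

lemma support_dif_le (ε : ℕ → Bool) (y₀ τ : Perm (Fin n)) : ∀ (N : ℕ)
    (g : Fin N → Perm (Fin n)), (dif ε y₀ (τ * y₀) N g).support.card ≤ N * τ.support.card
  | 0, g => by simp [dif, pre]
  | N + 1, g => by
    rw [dif_succ]
    have h1 := Finset.card_le_card (Perm.support_mul_le (sig ε y₀ τ N g)
      (dif ε y₀ (τ * y₀) N (Fin.init g)))
    have h2 := support_dif_le ε y₀ τ N (Fin.init g)
    have h3 := Finset.card_union_le (sig ε y₀ τ N g).support
      (dif ε y₀ (τ * y₀) N (Fin.init g)).support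
    rw [support_sig_card] at h3
    have h4 : (N + 1) * τ.support.card = N * τ.support.card + τ.support.card := by ring
    have h5 := h1.trans h3
    omega

/-- the number of bad letters -/
def bad (ε : ℕ → Bool) (y₀ τ : Perm (Fin n)) : (N : ℕ) → (Fin N → Perm (Fin n)) → ℕ
  | 0, _ => 0
  | N + 1, g => bad ε y₀ τ N (Fin.init g) +
      if τ.support.card ≤ 16 * hit ε y₀ (τ * y₀) τ.support N (Fin.init g) (g (Fin.last N)) then 1
      else 0

lemma drift_lower (ε : ℕ → Bool) (y₀ τ : Perm (Fin n)) : ∀ (N : ℕ) (g : Fin N → Perm (Fin n)),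
    7 * (N * τ.support.card) ≤ 8 * (dif ε y₀ (τ * y₀) N g).support.card +
      15 * (τ.support.card * bad ε y₀ τ N g)
  | 0, g => by simp
  | N + 1, g => by
    have h1 := drift_lower ε y₀ τ N (Fin.init g)
    have h2 := card_support_mul (sig ε y₀ τ N g) (dif ε y₀ (τ * y₀) N (Fin.init g))
    rw [← dif_succ, support_sig_card] at h2
    have h3 := inter_card ε y₀ τ N g
    have h4 := hit_le ε y₀ (τ * y₀) τ.support N (Fin.init g) (g (Fin.last N))
    rw [bad]
    have h5 : (N + 1) * τ.support.card = N * τ.support.card + τ.support.card := by ring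
    rw [h5, Nat.mul_add (τ.support.card)]
    split_ifs with h
    · rw [mul_one]
      omega
    · rw [mul_zero]
      omega

lemma sum_snoc {α : Type} [Fintype α] (N : ℕ) (F : (Fin (N + 1) → α) → ℝ) :
    ∑ g : Fin (N + 1) → α, F g = ∑ g : Fin N → α, ∑ h : α, F (Fin.snoc g h) := by
  rw [Finset.sum_comm, ← Fintype.sum_prod_type']
  exact (Fintype.sum_equiv (Fin.snocEquiv (fun _ => α)) _ _ (fun _ => rfl)).symm

lemma hit_bound {μ : Perm (Fin n) → ℝ} (ε : ℕ → Bool) (y₀ τ : Perm (Fin n)) {A : ℕ} {x : ℝ}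
    (h1 : Sampler μ τ.support A x) (h2 : Sampler μ (τ.support.image (y₀⁻¹ : Perm (Fin n))) A x) (N : ℕ)
    (g : Fin N → Perm (Fin n)) (hA : N * τ.support.card ≤ A) :
    ∑ h : Perm (Fin n), μ h * (if τ.support.card ≤
      16 * hit ε y₀ (τ * y₀) τ.support N g h then 1 else 0) ≤ x := by
  have hR : (RR ε y₀ (τ * y₀) N g).card ≤ A := by
    rw [card_RR]
    exact (support_dif_le ε y₀ τ N g).trans hA
  by_cases hε : ε N
  · have h3 := h2 _ hR
    rw [card_image_of_injective _ (y₀⁻¹).injective] at h3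
    refine (le_of_eq ?_).trans h3
    refine Finset.sum_congr rfl fun h _ => ?_
    have h4 : hit ε y₀ (τ * y₀) τ.support N g h =
        ((τ.support.image (y₀⁻¹ : Perm (Fin n))).filter fun q => h⁻¹ q ∈ RR ε y₀ (τ * y₀) N g).card := by
      unfold hit tst
      simp only [if_pos hε]
      symm
      rw [Finset.filter_image, card_image_of_injective _ (y₀⁻¹).injective]
    rw [h4]
  · have h3 := h1 _ hR
    refine (le_of_eq ?_).trans h3
    refine Finset.sum_congr rfl fun h _ => ?_
    have h4 : hit ε y₀ (τ * y₀) τ.support N g h =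
        (τ.support.filter fun q => h⁻¹ q ∈ RR ε y₀ (τ * y₀) N g).card := by
      unfold hit tst
      simp only [if_neg hε]
    rw [h4]

lemma moment {μ : Perm (Fin n) → ℝ} (hμ : ∀ g, 0 ≤ μ g) (hμ1 : ∑ g, μ g = 1)
    (ε : ℕ → Bool) (y₀ τ : Perm (Fin n)) {A : ℕ} {x : ℝ} (hx : 0 < x) (hx1 : x ≤ 1)
    (h1 : Sampler μ τ.support A x) (h2 : Sampler μ (τ.support.image (y₀⁻¹ : Perm (Fin n))) A x) : ∀ N : ℕ,
    N * τ.support.card ≤ A →
    ∑ g : Fin N → Perm (Fin n), (∏ j, μ (g j)) * x⁻¹ ^ bad ε y₀ τ N g ≤ 2 ^ N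
  | 0, _ => by simp [bad]
  | N + 1, hA => by
    have hA' : N * τ.support.card ≤ A :=
      (Nat.mul_le_mul_right _ (Nat.le_succ N)).trans hA
    have ih := moment hμ hμ1 ε y₀ τ hx hx1 h1 h2 N hA'
    rw [sum_snoc]
    have hstep : ∀ g : Fin N → Perm (Fin n), ∑ h : Perm (Fin n),
        (∏ j, μ ((Fin.snoc g h : Fin (N + 1) → Perm (Fin n)) j)) *
          x⁻¹ ^ bad ε y₀ τ (N + 1) (Fin.snoc g h) ≤
        2 * ((∏ j, μ (g j)) * x⁻¹ ^ bad ε y₀ τ N g) := by
      intro g
      have e1 : ∀ h : Perm (Fin n), (∏ j, μ ((Fin.snoc g h : Fin (N + 1) → Perm (Fin n)) j)) *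
          x⁻¹ ^ bad ε y₀ τ (N + 1) (Fin.snoc g h) =
          ((∏ j, μ (g j)) * x⁻¹ ^ bad ε y₀ τ N g) * (μ h * x⁻¹ ^ (if τ.support.card ≤
            16 * hit ε y₀ (τ * y₀) τ.support N g h then 1 else 0)) := by
        intro h
        rw [Fin.prod_univ_castSucc, bad]
        simp only [Fin.snoc_castSucc, Fin.snoc_last, Fin.init_snoc]
        rw [pow_add]
        ring
      simp only [e1]
      rw [← Finset.mul_sum, mul_comm (2 : ℝ)]
      refine mul_le_mul_of_nonneg_left ?_ (mul_nonneg (Finset.prod_nonneg fun j _ => hμ _)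
        (pow_nonneg (inv_nonneg.2 hx.le) _))
      have h3 := hit_bound ε y₀ τ h1 h2 N g hA'
      have h4 : ∀ h : Perm (Fin n), μ h * x⁻¹ ^ (if τ.support.card ≤
            16 * hit ε y₀ (τ * y₀) τ.support N g h then 1 else 0) ≤
          μ h + x⁻¹ * (μ h * (if τ.support.card ≤
            16 * hit ε y₀ (τ * y₀) τ.support N g h then 1 else 0)) := by
        intro h
        have h5 := hμ h
        split_ifs with hc
        · rw [pow_one, mul_one, mul_comm x⁻¹]
          linarith
        · simp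
      refine (Finset.sum_le_sum fun h _ => h4 h).trans ?_
      rw [Finset.sum_add_distrib, hμ1, ← Finset.mul_sum]
      have h6 := mul_le_mul_of_nonneg_left h3 (inv_nonneg.2 hx.le)
      rw [inv_mul_cancel₀ hx.ne'] at h6
      linarith
    refine (Finset.sum_le_sum fun g _ => hstep g).trans ?_
    rw [← Finset.mul_sum, pow_succ, mul_comm _ (2 : ℝ)]
    exact mul_le_mul_of_nonneg_left ih (by norm_num)

/-- **DRIFT.**  The probability that the difference of the two systems moves fewer than `N |P|/2`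
points is at most `2^N x^(N/5)`. -/
theorem drift {μ : Perm (Fin n) → ℝ} (hμ : ∀ g, 0 ≤ μ g) (hμ1 : ∑ g, μ g = 1)
    (ε : ℕ → Bool) (y₀ τ : Perm (Fin n)) {A : ℕ} {x : ℝ} (hx : 0 < x) (hx1 : x ≤ 1)
    (h1 : Sampler μ τ.support A x) (h2 : Sampler μ (τ.support.image (y₀⁻¹ : Perm (Fin n))) A x) (N : ℕ)
    (hA : N * τ.support.card ≤ A) :
    ∑ g : Fin N → Perm (Fin n), (∏ j, μ (g j)) *
      (if 2 * (dif ε y₀ (τ * y₀) N g).support.card < N * τ.support.card then 1 else 0) ≤
      2 ^ N * x ^ ((N : ℝ) / 5) := by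
  have key := moment hμ hμ1 ε y₀ τ hx hx1 h1 h2 N hA
  have h3 : ∀ g : Fin N → Perm (Fin n), (∏ j, μ (g j)) *
      (if 2 * (dif ε y₀ (τ * y₀) N g).support.card < N * τ.support.card then 1 else 0) ≤
      ((∏ j, μ (g j)) * x⁻¹ ^ bad ε y₀ τ N g) * x ^ ((N : ℝ) / 5) := by
    intro g
    have hp : 0 ≤ ∏ j, μ (g j) := Finset.prod_nonneg fun j _ => hμ _
    rw [mul_assoc]
    refine mul_le_mul_of_nonneg_left ?_ hp
    split_ifs with hc
    · have h4 := drift_lower ε y₀ τ N g
      have h5 : N < 5 * bad ε y₀ τ N g := by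
        by_contra hcon
        rw [not_lt] at hcon
        have h6 : τ.support.card * (5 * bad ε y₀ τ N g) ≤ τ.support.card * N :=
          Nat.mul_le_mul_left _ hcon
        have h7 : τ.support.card * (5 * bad ε y₀ τ N g) =
            5 * (τ.support.card * bad ε y₀ τ N g) := by ring
        have h8 : τ.support.card * N = N * τ.support.card := by ring
        omega
      have h6 : ((N : ℝ) / 5) ≤ (bad ε y₀ τ N g : ℝ) := by
        have : (N : ℝ) < 5 * (bad ε y₀ τ N g : ℝ) := by exact_mod_cast h5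
        linarith
      have h7 : x ^ ((bad ε y₀ τ N g : ℕ) : ℝ) ≤ x ^ ((N : ℝ) / 5) :=
        Real.rpow_le_rpow_of_exponent_ge hx hx1 h6
      rw [Real.rpow_natCast] at h7
      have h8 : 0 < x ^ bad ε y₀ τ N g := pow_pos hx _
      rw [inv_pow]
      rw [inv_mul_eq_div, le_div_iff₀ h8, one_mul]
      exact h7
    · exact mul_nonneg (pow_nonneg (inv_nonneg.2 hx.le) _) (Real.rpow_nonneg hx.le _)
  refine (Finset.sum_le_sum fun g _ => h3 g).trans ?_
  rw [← Finset.sum_mul]
  exact mul_le_mul_of_nonneg_right key (Real.rpow_nonneg hx.le _)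

end Pool.Agent.Helper96.FS
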